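import Pool.Agent.TH463.PiFew
import Pool.Agent.H326R2.Pi.Top

/-!
# The digits of the multiples of `π` in two coprime bases jointly

For `n = p ^ a * q ^ b` in a window `X ≤ n < H X` the points `n (x + m π)` modulo one are considered,
for `|m| ≤ M` and `X ≥ C M ^ 5.05`. For all but `X ^ (κ + σ)` of the integers `m` they contain a
proportion `κ` of Lebesgue measure. In the case `p = 2`, `q = 5` this is a statement about the decimal
digits of the numbers `2 ^ i m π` and `5 ^ j m π`.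
-/

set_option autoImplicit false

open Filter Topology

namespace Pool.Agent.Results.MP_57632f_nt.MultiplesInTwoBases

open Classical in
/-- the numbers `n = p ^ a * q ^ b` with `X ≤ n < H * X` -/
noncomputable def window (p q : ℕ) (X H : ℝ) : Finset ℕ :=
  (Finset.range ⌈H * X⌉₊).filter fun n => (∃ a b : ℕ, n = p ^ a * q ^ b) ∧ X ≤ n

open Classical in
/-- The points `n y` modulo one, `n` in the window, contain `κ` times Lebesgue measure up to `ε`: for
every arc with centre `c` and radius `r ≤ 1 / 2` at least `(2 r κ - ε) #(window)` of the `n` in the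
window are such that `n y` modulo one lies in the arc. -/
def Dominates (p q : ℕ) (κ ε X H y : ℝ) : Prop :=
  ∀ c r : ℝ, 0 ≤ r → r ≤ 1 / 2 → (2 * r * κ - ε) * (window p q X H).card ≤
    (((window p q X H).filter fun n : ℕ => ∃ k : ℤ, |n * y - c - k| ≤ r).card : ℝ)

/-- The first `k` decimal digits after the point of the number `z ≥ 0` or `z < 0` (of its fractional
part) are those of the integer `w < 10 ^ k`. -/
def StartsWith (k w : ℕ) (z : ℝ) : Prop := ⌊(10 : ℝ) ^ k * Int.fract z⌋ = (w : ℤ)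

/-- small denominators -/
theorem small_den (x : ℝ) (hx : Irrational x) (n : ℕ) :
    ∃ c : ℝ, 0 < c ∧ ∀ q : ℕ, 1 ≤ q → q < n → ∀ p : ℤ, c ≤ |q * x - p| := by
  induction n with
  | zero => exact ⟨1, one_pos, fun q _ h => absurd h (Nat.not_lt_zero q)⟩
  | succ n ih =>
    obtain ⟨c, hc, h⟩ := ih
    rcases Nat.eq_zero_or_pos n with hn | hn
    · exact ⟨1, one_pos, fun q h1 h2 => by omega⟩
    · have hirr : Irrational ((n : ℝ) * x) := hx.natCast_mul (by omega)
      have hpos : 0 < |(n : ℝ) * x - round ((n : ℝ) * x)| := by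
        rw [abs_pos, sub_ne_zero]
        exact hirr.ne_int _
      refine ⟨min c |(n : ℝ) * x - round ((n : ℝ) * x)|, lt_min hc hpos, fun q h1 h2 p => ?_⟩
      rcases Nat.lt_succ_iff_lt_or_eq.1 h2 with h3 | h3
      · exact (min_le_left _ _).trans (h q h1 h3 p)
      · rw [h3]
        exact (min_le_right _ _).trans (round_le _ _)

/-- the irrationality measure of `π` for all denominators -/
theorem pi_measure : ∃ c : ℝ, 0 < c ∧ ∀ q : ℕ, 1 ≤ q → ∀ p : ℤ,
    c ≤ (q : ℝ) ^ (5.05 : ℝ) * |q * Real.pi - p| := by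
  obtain ⟨q0, hq0⟩ := Pool.Agent.H326R2.Pi.main
  obtain ⟨c, hc, hsm⟩ := small_den Real.pi irrational_pi q0
  refine ⟨min c 1, lt_min hc one_pos, fun q hq p => ?_⟩
  have hqR : (1 : ℝ) ≤ q := by exact_mod_cast hq
  have hq0R : (0 : ℝ) < q := by linarith
  rcases lt_or_ge q q0 with h | h
  · refine (min_le_left _ _).trans ((hsm q hq h p).trans ?_)
    have h1 : (1 : ℝ) ≤ (q : ℝ) ^ (5.05 : ℝ) := Real.one_le_rpow hqR (by norm_num)
    nlinarith [abs_nonneg ((q : ℝ) * Real.pi - p)]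
  · refine (min_le_right _ _).trans ?_
    have h1 := hq0 q h p
    have e1 : |Real.pi - p / q| = |q * Real.pi - p| / q := by
      rw [← abs_of_pos hq0R, ← abs_div, abs_of_pos hq0R]
      congr 1
      field_simp
    rw [e1, le_div_iff₀ hq0R] at h1
    have h2 : (1 : ℝ) = (q : ℝ) ^ (5.05 : ℝ) * ((q : ℝ) ^ (-(6.05 : ℝ)) * q) := by
      have e2 : (q : ℝ) ^ (-(6.05 : ℝ)) * q = (q : ℝ) ^ (-(5.05 : ℝ)) := by
        rw [show (-(5.05 : ℝ)) = -(6.05 : ℝ) + 1 by norm_num, Real.rpow_add hq0R, Real.rpow_one]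
      rw [e2, ← Real.rpow_add hq0R]
      norm_num
    rw [h2]
    exact mul_le_mul_of_nonneg_left h1 (by positivity)

/-- the norm on the circle -/
lemma norm_iff (n : ℕ) (y c r : ℝ) (hr : 0 ≤ r) :
    ‖n • ((y : ℝ) : UnitAddCircle) - ((c : ℝ) : UnitAddCircle)‖ ≤ r ↔ ∃ k : ℤ, |n * y - c - k| ≤ r := by
  have e : n • ((y : ℝ) : UnitAddCircle) - ((c : ℝ) : UnitAddCircle) =
      ((n * y - c : ℝ) : UnitAddCircle) := by
    rw [← AddCircle.coe_nsmul, ← AddCircle.coe_sub, nsmul_eq_mul]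
  rw [e, UnitAddCircle.norm_eq]
  constructor
  · intro h
    exact ⟨_, h⟩
  · rintro ⟨k, hk⟩
    exact (round_le _ k).trans hk

open Classical in
lemma dom_of {p q : ℕ} {κ ε X H y : ℝ}
    (h : TH338.DD.Dom p q κ ε H X ((y : ℝ) : UnitAddCircle)) : Dominates p q κ ε X H y := by
  intro c r hr0 hr1
  have h1 := h ((c : ℝ) : UnitAddCircle) r hr0 hr1
  refine h1.trans (le_of_eq ?_)
  unfold W764.HL.vis
  have e : (W764.HL.win p q X (H * X)) = window p q X H := rfl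
  rw [e]
  congr 2
  apply Finset.filter_congr
  intro n _
  exact norm_iff n y c r hr0

lemma window_nonempty {p q : ℕ} (hp : 2 ≤ p) {X H : ℝ} (hX : 1 ≤ X) (hH : (p : ℝ) < H) :
    (window p q X H).Nonempty := by
  classical
  have hp1 : (1 : ℝ) < p := by
    have : (2 : ℝ) ≤ p := by exact_mod_cast hp
    linarith
  obtain ⟨n, h1, h2⟩ := exists_nat_pow_near hX hp1
  refine ⟨p ^ (n + 1), ?_⟩
  unfold window
  rw [Finset.mem_filter, Finset.mem_range, Nat.lt_ceil]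
  refine ⟨?_, ⟨n + 1, 0, by simp⟩, ?_⟩
  · push_cast
    rw [pow_succ']
    calc (p : ℝ) * p ^ n ≤ p * X := mul_le_mul_of_nonneg_left h1 (by linarith)
      _ < H * X := mul_lt_mul_of_pos_right hH (by linarith)
  · push_cast
    exact h2.le

open Classical in
lemma mem_window {p q : ℕ} {X H : ℝ} {n : ℕ} : n ∈ window p q X H ↔
    (∃ a b : ℕ, n = p ^ a * q ^ b) ∧ X ≤ n ∧ (n : ℝ) < H * X := by
  unfold window
  rw [Finset.mem_filter, Finset.mem_range, Nat.lt_ceil]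
  tauto

lemma starts_of_close {k w : ℕ} (hw : w < 10 ^ k) {z : ℝ} {j : ℤ}
    (h : |z - ((w : ℝ) + 1 / 2) / 10 ^ k - j| ≤ 1 / (4 * 10 ^ k)) : StartsWith k w z := by
  have hT : (0 : ℝ) < 10 ^ k := by positivity
  have hwR : (w : ℝ) + 1 ≤ 10 ^ k := by exact_mod_cast hw
  have hw0 : (0 : ℝ) ≤ w := Nat.cast_nonneg w
  have h1 := abs_le.1 h
  have e1 : (1 : ℝ) / (4 * 10 ^ k) * 10 ^ k = 1 / 4 := by field_simp
  have e2 : ((w : ℝ) + 1 / 2) / 10 ^ k * 10 ^ k = (w : ℝ) + 1 / 2 := by field_simp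
  -- multiply by 10 ^ k
  have h2 : (w : ℝ) + 1 / 4 ≤ 10 ^ k * (z - j) := by
    have := mul_le_mul_of_nonneg_right h1.1 hT.le
    have e3 : (z - ((w : ℝ) + 1 / 2) / 10 ^ k - j) * 10 ^ k = 10 ^ k * (z - j) -
      ((w : ℝ) + 1 / 2) / 10 ^ k * 10 ^ k := by ring
    rw [neg_mul, e1, e3, e2] at this
    linarith
  have h3 : 10 ^ k * (z - j) ≤ (w : ℝ) + 3 / 4 := by
    have := mul_le_mul_of_nonneg_right h1.2 hT.le
    have e3 : (z - ((w : ℝ) + 1 / 2) / 10 ^ k - j) * 10 ^ k = 10 ^ k * (z - j) -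
      ((w : ℝ) + 1 / 2) / 10 ^ k * 10 ^ k := by ring
    rw [e1, e3, e2] at this
    linarith
  have h4 : (0 : ℝ) ≤ z - j := by
    by_contra hc
    push Not at hc
    have := mul_neg_of_pos_of_neg hT hc
    linarith
  have h5 : z - j < 1 := by
    by_contra hc
    push Not at hc
    have := mul_le_mul_of_nonneg_left hc hT.le
    linarith
  have h6 : ⌊z⌋ = j := by
    rw [Int.floor_eq_iff]
    constructor <;> linarith
  have h7 : Int.fract z = z - j := by
    rw [Int.fract, h6]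
  unfold StartsWith
  rw [h7, Int.floor_eq_iff]
  push_cast
  constructor <;> linarith

open Classical in
/-- **Multiples of `π` in two bases.** (1) Let `p, q ≥ 2` be coprime (for instance `2` and `5`),
`0 ≤ κ ≤ 1`, `ε, σ > 0`. There is `H0 > 1` such that for every `H ≥ H0` there is `C > 0` with the
following property. For all `M ≥ 1` and `X ≥ C M ^ 5.05` and all real `x` the points `n (x + m π)`
modulo one, where `n` runs through the numbers `p ^ a * q ^ b` with `X ≤ n < H X`, contain `κ` times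
Lebesgue measure up to `ε` (see `Dominates`) for all but at most `X ^ (κ + σ)` of the integers `m` with
`|m| ≤ M`. (2) For every `k` and every `σ > 0` there are `H, C > 0` such that for all `M ≥ 1` and
`X ≥ C M ^ 5.05` and all real `x` the following holds for all but at most `X ^ σ` of the integers `m`
with `|m| ≤ M`: every block of `k` decimal digits is the beginning of the decimal expansion (after the
point) of one of the numbers `2 ^ a * 5 ^ b * (x + m π)`, `X ≤ 2 ^ a * 5 ^ b < H X`. -/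
theorem result :
    (∀ p q : ℕ, 2 ≤ p → 2 ≤ q → Nat.Coprime p q → ∀ κ ε σ : ℝ, 0 ≤ κ → κ ≤ 1 → 0 < ε → 0 < σ →
      ∃ H0 : ℝ, 1 < H0 ∧ ∀ H : ℝ, H0 ≤ H → ∃ C : ℝ, 0 < C ∧ ∀ (M : ℕ) (X : ℝ), 1 ≤ M →
        C * (M : ℝ) ^ (5.05 : ℝ) ≤ X → ∀ x : ℝ,
          (((Finset.Icc (-(M : ℤ)) M).filter fun m : ℤ =>
            ¬ Dominates p q κ ε X H (x + m * Real.pi)).card : ℝ) ≤ X ^ (κ + σ)) ∧
    (∀ (k : ℕ) (σ : ℝ), 0 < σ → ∃ H C : ℝ, 0 < H ∧ 0 < C ∧ ∀ (M : ℕ) (X : ℝ), 1 ≤ M →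
        C * (M : ℝ) ^ (5.05 : ℝ) ≤ X → ∀ x : ℝ,
          (((Finset.Icc (-(M : ℤ)) M).filter fun m : ℤ =>
            ¬ ∀ w : ℕ, w < 10 ^ k → ∃ a b : ℕ, X ≤ ((2 ^ a * 5 ^ b : ℕ) : ℝ) ∧
              ((2 ^ a * 5 ^ b : ℕ) : ℝ) < H * X ∧
              StartsWith k w (((2 ^ a * 5 ^ b : ℕ) : ℝ) * (x + m * Real.pi))).card : ℝ) ≤ X ^ σ) := by
  obtain ⟨c, hc, hπ⟩ := pi_measure
  have part1 : ∀ p q : ℕ, 2 ≤ p → 2 ≤ q → Nat.Coprime p q → ∀ κ ε σ : ℝ, 0 ≤ κ → κ ≤ 1 → 0 < ε →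
      0 < σ → ∃ H0 : ℝ, 1 < H0 ∧ ∀ H : ℝ, H0 ≤ H → ∃ C : ℝ, 0 < C ∧ ∀ (M : ℕ) (X : ℝ), 1 ≤ M →
        C * (M : ℝ) ^ (5.05 : ℝ) ≤ X → ∀ x : ℝ,
          (((Finset.Icc (-(M : ℤ)) M).filter fun m : ℤ =>
            ¬ Dominates p q κ ε X H (x + m * Real.pi)).card : ℝ) ≤ X ^ (κ + σ) := by
    intro p q hp hq hpq κ ε σ hκ0 hκ1 hε hσ
    obtain ⟨H0, hH0, h⟩ := TH463.PiFew.multiples hp hq hpq hκ0 hκ1 hε hσ
    refine ⟨H0, hH0, fun H hH => ?_⟩
    obtain ⟨C, hC, h2⟩ := h H hH Real.pi 5.05 c (by norm_num) hc hπ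
    refine ⟨C, hC, fun M X hM hX x => ?_⟩
    refine le_trans ?_ (h2 M X hM hX x)
    have : ((Finset.Icc (-(M : ℤ)) M).filter fun m : ℤ =>
            ¬ Dominates p q κ ε X H (x + m * Real.pi)).card ≤
        ((Finset.Icc (-(M : ℤ)) M).filter fun m : ℤ =>
          ¬ TH338.DD.Dom p q κ ε H X (((x + m * Real.pi : ℝ)) : UnitAddCircle)).card := by
      apply Finset.card_le_card
      intro m hm
      rw [Finset.mem_filter] at hm ⊢
      exact ⟨hm.1, fun hd => hm.2 (dom_of hd)⟩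
    exact_mod_cast this
  refine ⟨part1, fun k σ hσ => ?_⟩
  have hT : (0 : ℝ) < 10 ^ k := by positivity
  set κ : ℝ := min (σ / 2) 1 with hκ
  have hκ0 : 0 < κ := by positivity
  have hκ1 : κ ≤ 1 := min_le_right _ _
  have hκ2 : κ ≤ σ / 2 := min_le_left _ _
  set r : ℝ := 1 / (4 * 10 ^ k) with hr
  have hr0 : 0 < r := by positivity
  have hT1 : (1 : ℝ) ≤ 10 ^ k := one_le_pow₀ (by norm_num)
  have hr1 : r ≤ 1 / 2 := by
    rw [hr]
    apply one_div_le_one_div_of_le (by norm_num)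
    linarith
  obtain ⟨H0, hH0, h⟩ := part1 2 5 (by norm_num) (by norm_num) (by norm_num) κ (r * κ) (σ / 2)
    hκ0.le hκ1 (by positivity) (by positivity)
  set H : ℝ := max H0 3 with hH
  obtain ⟨C, hC, h2⟩ := h H (le_max_left _ _)
  have hH3 : (3 : ℝ) ≤ H := le_max_right _ _
  refine ⟨H, max C 1, by linarith, by positivity, fun M X hM hX x => ?_⟩
  have hMR : (1 : ℝ) ≤ M := by exact_mod_cast hM
  have hMτ : (1 : ℝ) ≤ (M : ℝ) ^ (5.05 : ℝ) := Real.one_le_rpow hMR (by norm_num)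
  have hCX : C * (M : ℝ) ^ (5.05 : ℝ) ≤ X :=
    (mul_le_mul_of_nonneg_right (le_max_left _ _) (by positivity)).trans hX
  have hX1 : 1 ≤ X := by
    refine le_trans ?_ hX
    have : (1 : ℝ) ≤ max C 1 := le_max_right _ _
    nlinarith
  have h3 := h2 M X hM hCX x
  have h4 : X ^ (κ + σ / 2) ≤ X ^ σ := Real.rpow_le_rpow_of_exponent_le hX1 (by linarith)
  refine le_trans ?_ (h3.trans h4)
  have : ((Finset.Icc (-(M : ℤ)) M).filter fun m : ℤ =>
            ¬ ∀ w : ℕ, w < 10 ^ k → ∃ a b : ℕ, X ≤ ((2 ^ a * 5 ^ b : ℕ) : ℝ) ∧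
              ((2 ^ a * 5 ^ b : ℕ) : ℝ) < H * X ∧
              StartsWith k w (((2 ^ a * 5 ^ b : ℕ) : ℝ) * (x + m * Real.pi))).card ≤
      ((Finset.Icc (-(M : ℤ)) M).filter fun m : ℤ =>
            ¬ Dominates 2 5 κ (r * κ) X H (x + m * Real.pi)).card := by
    apply Finset.card_le_card
    intro m hm
    rw [Finset.mem_filter] at hm ⊢
    refine ⟨hm.1, fun hd => hm.2 fun w hw => ?_⟩
    have hW := window_nonempty (p := 2) (q := 5) (by norm_num) hX1 (by push_cast; linarith :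
      ((2 : ℕ) : ℝ) < H)
    have hWc : (0 : ℝ) < ((window 2 5 X H).card : ℝ) := by exact_mod_cast hW.card_pos
    have h5 := hd (((w : ℝ) + 1 / 2) / 10 ^ k) r hr0.le hr1
    have h6 : 0 < (2 * r * κ - r * κ) * ((window 2 5 X H).card : ℝ) := by
      have : 0 < 2 * r * κ - r * κ := by
        have : 0 < r * κ := by positivity
        linarith
      positivity
    have h7 := h6.trans_le h5
    have h8 : 0 < ((window 2 5 X H).filter fun n : ℕ => ∃ j : ℤ,
        |n * (x + m * Real.pi) - ((w : ℝ) + 1 / 2) / 10 ^ k - j| ≤ r).card := by exact_mod_cast h7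
    obtain ⟨n, hn⟩ := Finset.card_pos.1 h8
    rw [Finset.mem_filter, mem_window] at hn
    obtain ⟨⟨⟨a, b, rfl⟩, h9, h10⟩, j, hj⟩ := hn
    exact ⟨a, b, h9, h10, starts_of_close hw hj⟩
  exact_mod_cast this

end Pool.Agent.Results.MP_57632f_nt.MultiplesInTwoBases
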