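import Pool.Agent.TH869.LPD.All
import Pool.Agent.TH869.LPD.PiM

/-!
# The digits of the polynomial multiples of `π`

Let `f` be a polynomial with integer coefficients of degree between `1` and `d`, and `h` a real
polynomial of smaller degree. The digits of the numbers `f(l) π + h(l)`, `l < N`, in base `b`, are
equidistributed, with a power saving in `N`, at places `s` which are explicitly located, and all but
few of these numbers contain every block of `k` digits infinitely often.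
-/

set_option autoImplicit false

namespace Pool.Agent.Results.MP_57632f_nt.PolynomialMultiples

open Polynomial Pool.Agent.W226.MP Pool.Agent.TH869.LPD

/-- For every `d` there are `c, C > 0` such that for all bases `b ≥ 2` (for instance `b = 10`), all
`f ∈ ℤ[X]` with `1 ≤ deg f ≤ d`, all `h ∈ ℝ[X]` with `deg h < deg f` and all `N ≥ 1` the numbers
`y l = f(l) π + h(l)`, `l < N`, have the following properties.
(1) After every place `S` there is a place `s ≤ 6.05 S + 5.05 log_b (N |a|) + C`, `a` the leading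
coefficient of `f`, such that
(1a) the discrepancy of the fractional parts of the `N` numbers `b ^ s y l` is at most
`C (b / N) ^ c`: the number of `l < N` with `α ≤ {b ^ s y l} < β` is `(β - α) N` up to an error of
`C N (b / N) ^ c`;
(1b) if `b ^ L ≤ (N / b) ^ c` and `1 ≤ k ≤ L`, `0 < ε ≤ 1`, then for all but at most
`C k b ^ k exp (- (ε² / 4) ⌊(L + 1 - k) / k⌋) N` of the `l < N`, every block `w` of `k` digits occurs
in the `L` digits of `y l` after the place `s` the expected number `(L + 1 - k) / b ^ k` of times up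
to an error of `ε (L + 1 - k) + k`.
(2) For every `k ≥ 1` all but at most `C b ^ k N (b / N) ^ (c / (2 k b ^ k log b))` of the `l < N` are
such that every block of `k` digits occurs infinitely often in the expansion of `y l`. -/
theorem result (d : ℕ) : ∃ c C : ℝ, 0 < c ∧ 0 < C ∧
    ∀ b : ℕ, 2 ≤ b → ∀ f : ℤ[X], 1 ≤ f.natDegree → f.natDegree ≤ d →
    ∀ h : ℝ[X], h.natDegree < f.natDegree → ∀ N : ℕ, 1 ≤ N →
    (∀ S : ℕ, ∃ s : ℕ, S ≤ s ∧
      (s : ℝ) ≤ 6.05 * S + 5.05 * (Real.log (N * |(f.leadingCoeff : ℝ)|) / Real.log b) + C ∧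
      (∀ α β : ℝ, 0 ≤ α → α ≤ β → β ≤ 1 →
        |({l : ℕ | l < N ∧ α ≤ Int.fract ((b : ℝ) ^ s * seqv f h Real.pi l) ∧
            Int.fract ((b : ℝ) ^ s * seqv f h Real.pi l) < β}.ncard : ℝ) - (β - α) * N|
          ≤ C * N * ((b : ℝ) / N) ^ c) ∧
      (∀ k L : ℕ, 1 ≤ k → k ≤ L → (b : ℝ) ^ L ≤ ((N : ℝ) / b) ^ c → ∀ ε : ℝ, 0 < ε → ε ≤ 1 →
        ({l : ℕ | l < N ∧ ∃ w : Fin k → Fin b, ε * (L + 1 - k : ℕ) + k <
          |(occ b k w (seqv f h Real.pi l) s (L + 1 - k) : ℝ)
            - (L + 1 - k : ℕ) / (b : ℝ) ^ k|}.ncard : ℝ)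
          ≤ C * k * (b : ℝ) ^ k * Real.exp (-(ε ^ 2 / 4) * ((L + 1 - k) / k : ℕ)) * N)) ∧
    (∀ k : ℕ, 1 ≤ k →
      ({l : ℕ | l < N ∧ ∃ w : Fin k → Fin b,
        {p : ℕ | OccursAt b k w (seqv f h Real.pi l) p}.Finite}.ncard : ℝ)
        ≤ C * (b : ℝ) ^ k * N * ((b : ℝ) / N) ^ (c / (2 * k * (b : ℝ) ^ k * Real.log b))) := by
  obtain ⟨c0, hc0, hm⟩ := pi_measure
  obtain ⟨c, hc, _, K, hK, hmain⟩ := poly_words d
  have hA : 0 ≤ |Real.log c0| / Real.log 2 + 1 := by
    have : 0 < Real.log 2 := Real.log_pos (by norm_num)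
    positivity
  set A : ℝ := |Real.log c0| / Real.log 2 + 1 with hAdef
  refine ⟨c, K + A, hc, by linarith, ?_⟩
  intro b hb f hf1 hf2 h hh N hN
  obtain ⟨h1, h2⟩ := hmain Real.pi 5.05 c0 (by norm_num) hc0 hm b hb f hf1 hf2 h hh N hN
  refine ⟨?_, ?_⟩
  · intro S
    obtain ⟨s, a1, a2, a3, a4⟩ := h1 S
    refine ⟨s, a1, ?_, ?_, ?_⟩
    · rw [← hAdef] at a2
      have e1 : (1 : ℝ) + 5.05 = 6.05 := by norm_num
      rw [e1] at a2
      linarith
    · intro α β hα hαβ hβ
      refine (a3 α β hα hαβ hβ).trans ?_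
      have h3 : 0 ≤ (N : ℝ) * ((b : ℝ) / N) ^ c := by positivity
      nlinarith
    · intro k L hk hkL hL ε hε hε1
      refine (a4 k L hk hkL hL ε hε hε1).trans ?_
      have h3 : 0 ≤ (k : ℝ) * (b : ℝ) ^ k * Real.exp (-(ε ^ 2 / 4) * ((L + 1 - k) / k : ℕ)) * N := by
        positivity
      nlinarith
  · intro k hk
    refine (h2 k hk).trans ?_
    have h3 : 0 ≤ (b : ℝ) ^ k * N * ((b : ℝ) / N) ^ (c / (2 * k * (b : ℝ) ^ k * Real.log b)) := by
      positivity
    nlinarith

end Pool.Agent.Results.MP_57632f_nt.PolynomialMultiples
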