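import Pool.Agent.TH373.DR2.TV

set_option autoImplicit false

/-!
# The decimal digits of `π/n`, `n ≤ X`, are almost independent

The number `π/n` is normal in base `b` if and only if `π` is.  Choose an integer `n ≤ X` at random.
The first `log_b n` digits of `π/n` are zeros (up to a bounded number of places).  We show that the
digits of `π/n` in base `b` at any `r ≤ c log X / log log X` different places `j` with
`(1 + η) log_b X ≤ j ≤ A log X` are `X^(-c)`-close to independent uniformly distributed digits, in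
total variation.  The theorem is stated for all real `α ≠ 0` in place of `π`, and more generally for
the numbers `x n = α n^(-θ) + β`, `θ > 0` real, with `θ + η` in place of `1 + η`.
-/

namespace Pool.Agent.Results.MP_57632f_nt.QuotientsIndependentDigits

open Finset Pool.Agent.TH373.DR

/-- The `j`-th digit after the point of the real number `x` in base `b` (`j ≥ 1`), that is
`⌊x b^j⌋` modulo `b`. -/
noncomputable def digit (b : ℕ) (x : ℝ) (j : ℕ) : ℤ := ⌊x * (b : ℝ) ^ j⌋ % (b : ℤ)

/-- **Theorem.** -/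
theorem result (α β : ℝ) (hα : α ≠ 0) (θ : ℝ) (hθ : 0 < θ) (b : ℕ) (hb : 2 ≤ b)
    (η : ℝ) (hη : 0 < η) (A : ℝ) :
    ∃ c : ℝ, 0 < c ∧ ∃ X₀ : ℕ, ∀ X : ℕ, X₀ ≤ X → ∀ r : ℕ,
      (r : ℝ) * Real.log (Real.log X) ≤ c * Real.log X →
      ∀ pl : Fin r → ℕ, Function.Injective pl →
        (∀ k, (θ + η) * Real.logb b X ≤ pl k ∧ (pl k : ℝ) ≤ A * Real.log X) →
        ∀ W : Finset (Fin r → Fin b), ∀ T : Finset ℕ,
          (∀ n, n ∈ T ↔ (1 ≤ n ∧ n ≤ X) ∧ ∃ w ∈ W, ∀ k,
            digit b (α * (n : ℝ) ^ (-θ) + β) (pl k) = ((w k : ℕ) : ℤ)) →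
          |(T.card : ℝ) - X * W.card / (b : ℝ) ^ r| ≤ (X : ℝ) ^ (1 - c) := by
  have hneg : ∀ m : ℕ, -θ ≠ m := by
    intro m hm
    have : (0 : ℝ) ≤ m := by positivity
    linarith
  have hreg := (fam_pow (-θ) hneg).reg
  have hceil : ⌈-θ⌉₊ = 0 := Nat.ceil_eq_zero.2 (by linarith)
  have hbR : (2 : ℝ) ≤ b := by exact_mod_cast hb
  have hlb : 0 < Real.log b := Real.log_pos (by linarith)
  set g0 : ℝ := (θ + η / 2) / Real.log b with hg0
  have hE : ((max 2 ⌈-θ⌉₊ : ℕ) : ℝ) - 2 - -θ < g0 * Real.log b := by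
    rw [hceil, max_eq_left (by omega), hg0]
    push_cast
    have : (θ + η / 2) / Real.log b * Real.log b = θ + η / 2 := by field_simp
    rw [this]
    linarith
  have hA' : 0 < max A 1 := lt_of_lt_of_le one_pos (le_max_right _ _)
  obtain ⟨c, hc, X0, hmain⟩ := indep_tv hreg b hb α β hα g0 (max A 1) (by positivity) hA' hE
  have t : Filter.Tendsto (fun X : ℕ => Real.log X) Filter.atTop Filter.atTop :=
    Real.tendsto_log_atTop.comp tendsto_natCast_atTop_atTop
  obtain ⟨X1, hX1⟩ := Filter.eventually_atTop.1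
    (t.eventually_ge_atTop (max 1 (2 * Real.log b / η)))
  refine ⟨c, hc, max X0 X1, fun X hX r hr pl hinj hpl W T hT => ?_⟩
  have hX0 := (le_max_left X0 X1).trans hX
  have hlogX := hX1 X ((le_max_right X0 X1).trans hX)
  rw [max_le_iff] at hlogX
  obtain ⟨hlog1, hlog2⟩ := hlogX
  have hlog : 0 ≤ Real.log X := by linarith
  have hlb' : (θ + η) * Real.logb b X = (θ + η) / Real.log b * Real.log X := by
    rw [Real.logb]; ring
  have hpl1 : ∀ k, 1 ≤ pl k := by
    intro k
    have h1 := (hpl k).1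
    rw [hlb'] at h1
    have h2 : 0 < (θ + η) / Real.log b * Real.log X := by positivity
    have h3 : (0 : ℝ) < pl k := by linarith
    exact_mod_cast h3
  refine hmain X hX0 r hr (fun k => pl k - 1) (fun k k' hkk => ?_) (fun k => ⟨?_, ?_⟩) W T
    (fun n => ?_)
  · have h1 := hpl1 k
    have h2 := hpl1 k'
    exact hinj (by simp only at hkk; omega)
  · have h1 := (hpl k).1
    rw [hlb'] at h1
    rw [Nat.cast_sub (hpl1 k), Nat.cast_one]
    have h2 : 1 ≤ η / 2 / Real.log b * Real.log X := by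
      rw [div_le_iff₀ hη] at hlog2
      rw [div_div, div_mul_eq_mul_div, le_div_iff₀ (by positivity)]
      linarith
    have h3 : (θ + η) / Real.log b * Real.log X = g0 * Real.log X + η / 2 / Real.log b * Real.log X := by
      rw [hg0]; ring
    linarith
  · have h1 : ((pl k - 1 : ℕ) : ℝ) ≤ pl k := by exact_mod_cast Nat.sub_le _ _
    exact h1.trans ((hpl k).2.trans (mul_le_mul_of_nonneg_right (le_max_left _ _) hlog))
  · rw [hT]
    apply and_congr_right
    intro _
    apply exists_congr
    intro w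
    apply and_congr_right
    intro _
    unfold HasDigits
    apply forall_congr'
    intro k
    rw [dgt_eq b _ _ (hpl1 k)]
    unfold digit
    have e1 : α * (n : ℝ) ^ (-θ) + β = α * (fall (-θ) 0 * (n : ℝ) ^ (-θ - (0 : ℕ))) + β := by
      simp [fall]
    rw [e1]

end Pool.Agent.Results.MP_57632f_nt.QuotientsIndependentDigits
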