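import Mathlib
import Pool.Agent.TH461.AL.Dec2
import Pool.Agent.H847R3.SuppF

/-!
# Decimal words in the numbers `2 ^ n π` for almost all `n`

For `u, v ≥ 2` coprime (such as `u = 2`, `v = 5`) and `x = π` or any irrational number which is not
a Liouville number: for all but `δ M` of the `n < M` every word of `k` digits in base `u v` begins at
least `M ^ (1 - ε)` times within the first `C M` digits of `u ^ n x` behind the point.
-/

set_option autoImplicit false

open Filter Topology

namespace Pool.Agent.Results.MP_57632f_nt.WordsInDoubles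

open Classical in
/-- Let `u, v ≥ 2` be coprime (for instance `u = 2`, `v = 5` or `u = 5`, `v = 2`), `b = u v` and
`x = π` or any irrational number which is not a Liouville number.  There is a number `C` such that
for all `k`, `ε, δ > 0` and all large `M`, for all but at most `δ M` of the `n < M`: every word of
`k` base `b` digits (the word with value `W < b ^ k`, with leading zeros) occurs in the base `b`
expansion of `u ^ n x` right after the `i`-th digit behind the point for at least `M ^ (1 - ε)`
numbers `i < C M`. -/
theorem result (u v : ℕ) (hu : 2 ≤ u) (hv : 2 ≤ v) (hco : Nat.Coprime u v) (x : ℝ)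
    (hx : x = Real.pi ∨ (Irrational x ∧ ¬ Liouville x)) :
    ∃ C : ℕ, ∀ (k : ℕ) (ε δ : ℝ), 0 < ε → 0 < δ → ∃ M0 : ℕ, ∀ M : ℕ, M0 ≤ M →
      (((Finset.range M).filter (fun n : ℕ => ¬ ∀ W < (u * v) ^ k, (M : ℝ) ^ (1 - ε) ≤
        (((Finset.range (C * M)).filter (fun i : ℕ =>
          ⌊((u * v : ℕ) : ℝ) ^ (i + k) * ((u : ℝ) ^ n * x)⌋ % (((u * v : ℕ) : ℤ) ^ k) =
            (W : ℤ))).card : ℝ))).card : ℝ) ≤ δ * M := by
  have hgood : Irrational x ∧ ¬ Liouville x := by
    rcases hx with rfl | h
    · exact Pool.Agent.H847R3.XpXq.pi_good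
    · exact h
  exact Pool.Agent.TH461.AL.Dec2.real_words hu hv hco hgood.1 hgood.2

end Pool.Agent.Results.MP_57632f_nt.WordsInDoubles
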